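import Pool.Agent.Lib.MP_43444d_nt.Thr2

set_option autoImplicit false

namespace Pool.Agent.Results.MP_43444d_nt.GrowthThreshold

open Filter Pool.Agent.Lib.MP_43444d_nt

/-- For `γ ≥ 1`: the indices at which a term lies below all its symmetric averages have density
zero for every increasing integer sequence of growth exponent at most `γ` exactly when `γ = 1`. -/
theorem result (γ : ℝ) (hγ : 1 ≤ γ) :
    (∀ a : ℕ → ℕ, StrictMono a →
      (∀ ε : ℝ, 0 < ε → ∀ᶠ n : ℕ in atTop, (a n : ℝ) ≤ (n : ℝ) ^ (γ + ε)) →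
      Tendsto (fun N : ℕ => (Set.ncard {n : ℕ | 2 ≤ n ∧ n ≤ N ∧ ∀ i : ℕ, 1 ≤ i → i ≤ n - 1 →
        2 * a n < a (n - i) + a (n + i)} : ℝ) / N) atTop (nhds 0)) ↔ γ = 1 := by
  refine ⟨fun H => ?_, fun e a ha h => Thr.slow ha.monotone (e ▸ h)⟩
  by_contra hne
  obtain ⟨a, h1, h2, h3⟩ := Thr.fast (lt_of_le_of_ne hγ (Ne.symm hne))
  exact h3 (H a h1 h2)

end Pool.Agent.Results.MP_43444d_nt.GrowthThreshold
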