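import Pool.Agent.Lib.MP_43444d_nt.Thr2

set_option autoImplicit false

namespace Pool.Agent.Results.MP_43444d_nt.PrimeDensity

open Filter Pool.Agent.Lib.MP_43444d_nt

/-- With `p n = Nat.nth Nat.Prime (n - 1)` the `n`-th prime, the set of `n ≥ 2` such that
`2 * p n < p (n - i) + p (n + i)` for all `1 ≤ i ≤ n - 1` has natural density zero. -/
theorem result : Tendsto (fun N : ℕ => (Set.ncard {n : ℕ | 2 ≤ n ∧ n ≤ N ∧ ∀ i : ℕ, 1 ≤ i →
    i ≤ n - 1 → 2 * Nat.nth Nat.Prime (n - 1) <
      Nat.nth Nat.Prime (n - i - 1) + Nat.nth Nat.Prime (n + i - 1)} : ℝ) / N) atTop (nhds 0) := by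
  have hm := Nat.nth_strictMono Nat.infinite_setOfPred_prime
  have h := Thr.slow (a := fun n => if n = 0 then 0 else Nat.nth Nat.Prime (n - 1))
    (strictMono_nat_of_lt_succ fun n => by
      rw [if_neg (Nat.succ_ne_zero n)]
      split_ifs with h0
      · exact (Nat.prime_nth_prime _).pos
      · exact hm (by omega)).monotone
    fun ε hε => ?_
  · refine h.congr fun N => ?_
    congr 3
    ext n
    refine and_congr_right fun h2 => and_congr_right fun _ => forall_congr' fun i =>
      imp_congr_right fun h3 => imp_congr_right fun h4 => ?_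
    rw [if_neg (by omega), if_neg (by omega), if_neg (by omega)]
  · have hb0 : 0 < ε / (2 * (1 + ε)) := by positivity
    have hb1 : ε / (2 * (1 + ε)) < 1 := by rw [div_lt_one (by positivity)]; linarith
    have e : (1 + ε) * (1 - ε / (2 * (1 + ε))) = ε / 2 + 1 := by field_simp; ring
    filter_upwards [((tendsto_rpow_atTop (half_pos hε)).comp
      tendsto_natCast_atTop_atTop).eventually_ge_atTop
      (2 * (2 / (ε / (2 * (1 + ε)) * Real.log 2))), eventually_ge_atTop 1] with n h1 h2
    have hn : (1 : ℝ) ≤ n := by exact_mod_cast h2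
    have h3 := nth_prime_rpow_le hb0 hb1.le (n - 1)
    have h4 : 0 < 2 / (ε / (2 * (1 + ε)) * Real.log 2) :=
      div_pos two_pos (mul_pos hb0 (Real.log_pos one_lt_two))
    rw [if_neg (by omega), ← Real.rpow_le_rpow_iff (by positivity) (by positivity)
      (sub_pos.2 hb1), ← Real.rpow_mul (by positivity), e, Real.rpow_add (by linarith),
      Real.rpow_one]
    rw [Nat.cast_sub h2] at h3
    simp only [Function.comp] at h1
    push_cast at h3
    nlinarith

end Pool.Agent.Results.MP_43444d_nt.PrimeDensity
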